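import Pool.Agent.J6H36.BSV.Defs2

/-!
Module P1K of the project BSV of helper36: an element of a finite extension of `K(t)` which is integral over `K[t]`
and over `K[t⁻¹]` is a constant (`K` algebraically closed).
-/

set_option autoImplicit false

universe u

namespace Pool.Agent.J6H48.BSV

open Polynomial IntermediateField Pool.Agent.J6H36.BSV
open scoped algebraAdjoinAdjoin

/-- the coefficients of the minimal polynomial over `K(t)` of an element integral over `K[t]` are polynomials -/
lemma coeff_poly {K F : Type u} [Field K] [Field F] [Algebra K F] {t : F} (ht : Transcendental K t)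
    {y : F} (hy : IsIntegral (Algebra.adjoin K ({t} : Set F)) y) (n : ℕ) :
    ∃ p : K[X], ((minpoly K⟮t⟯ y).map (algebraMap K⟮t⟯ F)).coeff n = aeval t p := by
  have hic : IsIntegrallyClosed (Algebra.adjoin K ({t} : Set F)) :=
    IsIntegrallyClosed.of_equiv (Polynomial.algEquivOfTranscendental K t ht).toRingEquiv
  have h := minpoly.isIntegrallyClosed_eq_field_fractions' (R := Algebra.adjoin K ({t} : Set F)) K⟮t⟯ hy
  rw [h, coeff_map, coeff_map]
  obtain ⟨x, hx⟩ := (minpoly (Algebra.adjoin K ({t} : Set F)) y).coeff n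
  have h2 := hx
  rw [Algebra.adjoin_singleton_eq_range_aeval] at h2
  obtain ⟨p, hp⟩ := h2
  exact ⟨p, hp.symm⟩

/-- a polynomial in `t` which is a polynomial in `t⁻¹` is a constant -/
lemma const_of_both {K F : Type u} [Field K] [Field F] [Algebra K F] {t : F} (ht : Transcendental K t)
    (p q : K[X]) (h : aeval t p = aeval t⁻¹ q) : ∃ c : K, aeval t p = algebraMap K F c := by
  have ht0 : t ≠ 0 := by
    rintro rfl
    exact ht isAlgebraic_zero
  let _ : Invertible t := invertibleOfNonzero ht0
  have hr : (reflect q.natDegree q).natDegree ≤ q.natDegree :=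
    natDegree_reflect_le.trans (by simp)
  have h1 := eval₂_reflect_mul_pow (algebraMap K F) t q.natDegree (reflect q.natDegree q) hr
  rw [reflect_reflect, invOf_eq_inv] at h1
  have h2 : aeval t (p * X ^ q.natDegree) = aeval t (reflect q.natDegree q) := by
    rw [map_mul, map_pow, aeval_X, h, aeval_def, aeval_def, h1]
  have h3 : p * X ^ q.natDegree = reflect q.natDegree q :=
    (transcendental_iff_injective.1 ht) h2
  by_cases hp : p = 0
  · exact ⟨0, by rw [hp, map_zero, map_zero]⟩
  · have h4 : p.natDegree = 0 := by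
      rw [← h3, natDegree_mul_X_pow _ hp] at hr
      omega
    obtain ⟨c, hc⟩ := natDegree_eq_zero.1 h4
    exact ⟨c, by rw [← hc, aeval_C]⟩

lemma minpoly_congr {K F : Type u} [Field K] [Field F] [Algebra K F] {L L' : IntermediateField K F}
    (h : L = L') (y : F) :
    (minpoly L y).map (algebraMap L F) = (minpoly L' y).map (algebraMap L' F) := by
  subst h
  rfl

theorem t_P1K : S_P1K.{u} := by
  intro K F _ _ _ _ t ht _ y hy hy'
  have ht0 : t ≠ 0 := by
    rintro rfl
    exact ht isAlgebraic_zero
  have ht' : Transcendental K t⁻¹ := by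
    intro h
    apply ht
    have := h.inv
    rwa [inv_inv] at this
  have hL : K⟮t⟯ = K⟮t⁻¹⟯ := by
    apply le_antisymm
    · rw [adjoin_simple_le_iff]
      have := inv_mem (mem_adjoin_simple_self K t⁻¹)
      rwa [inv_inv] at this
    · rw [adjoin_simple_le_iff]
      exact inv_mem (mem_adjoin_simple_self K t)
  have hyL : IsIntegral K⟮t⟯ y := hy.tower_top
  set g : F[X] := (minpoly K⟮t⟯ y).map (algebraMap K⟮t⟯ F) with hg
  have hgm : g.Monic := (minpoly.monic hyL).map _
  have hgy : g.eval y = 0 := by
    rw [hg, eval_map, ← aeval_def, minpoly.aeval]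
  have hc : ∀ n, g.coeff n ∈ Set.range (algebraMap K F) := by
    intro n
    obtain ⟨p, hp⟩ := coeff_poly ht hy n
    obtain ⟨q, hq⟩ := coeff_poly ht' hy' n
    rw [← minpoly_congr hL y, hp] at hq
    obtain ⟨c, hc⟩ := const_of_both ht p q hq
    exact ⟨c, by rw [hg, hp, hc]⟩
  have hl : g ∈ lifts (algebraMap K F) := (lifts_iff_coeff_lifts g).2 hc
  obtain ⟨g0, hg0, -, hg0m⟩ := lifts_and_natDegree_eq_and_monic hl hgm
  have hyK : IsIntegral K y := ⟨g0, hg0m, by rw [← eval_map, hg0, hgy]⟩
  exact minpoly.mem_range_of_degree_eq_one K y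
    (IsAlgClosed.degree_eq_one_of_irreducible K (minpoly.irreducible hyK))

end Pool.Agent.J6H48.BSV
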